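import Mathlib

set_option autoImplicit false

namespace Pool.Agent.Results.MP_130313_co.Disproof

open SimpleGraph

/-- `G` has a perfect `F`-packing: a family of copies of `F` in `G` (injective graph
homomorphisms) such that every vertex of `G` lies in exactly one of them. -/
def HasPerfectPacking {m n : ℕ} (F : SimpleGraph (Fin m)) (G : SimpleGraph (Fin n)) : Prop :=
  ∃ (k : ℕ) (c : Fin k → F.Copy G), ∀ v : Fin n, ∃! i : Fin k, v ∈ Set.range (c i)

/-- The chromatic number, as a natural number.  A proper colouring with colour set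
`Fin (chi F)` is an optimal colouring. -/
noncomputable def chi {m : ℕ} (F : SimpleGraph (Fin m)) : ℕ := F.chromaticNumber.toNat

/-- `sigma F`: the least size of a colour class in an optimal colouring. -/
noncomputable def sigma {m : ℕ} (F : SimpleGraph (Fin m)) : ℕ :=
  sInf {s : ℕ | ∃ (c : F.Coloring (Fin (chi F))) (i : Fin (chi F)), s = (c.colorClass i).ncard}

/-- The critical chromatic number. -/
noncomputable def chiCr {m : ℕ} (F : SimpleGraph (Fin m)) : ℝ :=
  ((chi F : ℝ) - 1) * (m : ℝ) / ((m : ℝ) - (sigma F : ℝ))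

/-- The set of differences of consecutive class sizes of optimal colourings (colours numbered so
that the class sizes are nondecreasing). -/
def diffs {m : ℕ} (F : SimpleGraph (Fin m)) : Set ℕ :=
  {d : ℕ | ∃ c : F.Coloring (Fin (chi F)), Monotone (fun i => (c.colorClass i).ncard) ∧
    ∃ i j : Fin (chi F), (j : ℕ) = (i : ℕ) + 1 ∧
      d = (c.colorClass j).ncard - (c.colorClass i).ncard}

/-- The condition hcf(F) = 1, in the bipartite and in the non-bipartite case. -/
def HcfOne {m : ℕ} (F : SimpleGraph (Fin m)) : Prop :=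
  (F.Colorable 2 ∧
    (∀ g : ℕ, (∀ C : F.ConnectedComponent, g ∣ C.supp.ncard) → g = 1) ∧
    (∀ (c : F.Coloring (Fin 2)) (g : ℕ),
      (∀ C : F.ConnectedComponent,
        (g : ℤ) ∣ ((C.supp ∩ c.colorClass 0).ncard : ℤ) - ((C.supp ∩ c.colorClass 1).ncard : ℤ)) →
      g ≤ 2)) ∨
  (¬ F.Colorable 2 ∧ ∀ g : ℕ, (∀ d ∈ diffs F, g ∣ d) → g = 1)

open Classical in
/-- The parameter chi-star of Kuehn and Osthus. -/
noncomputable def chiStar {m : ℕ} (F : SimpleGraph (Fin m)) : ℝ :=
  if HcfOne F then chiCr F else (chi F : ℝ)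

/-! ### Complete tripartite graphs given by a part map -/

theorem exists_part (s : Fin 3 → ℕ) (N : ℕ) (hN : N = ∑ i, s i) :
    ∃ p : Fin N → Fin 3, ∀ i, (Finset.univ.filter (fun v => p v = i)).card = s i := by
  subst hN
  refine ⟨fun v => (finSigmaFinEquiv.symm v).1, fun i => ?_⟩
  have h1 : (Finset.univ.filter (fun v : Fin (∑ i, s i) => (finSigmaFinEquiv.symm v).1 = i)).card
      = (Finset.univ.filter (fun x : (j : Fin 3) × Fin (s j) => x.1 = i)).card := by
    apply Finset.card_equiv finSigmaFinEquiv.symm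
    intro v
    simp
  rw [h1]
  have h2 : (Finset.univ.filter (fun x : (j : Fin 3) × Fin (s j) => x.1 = i))
      = (Finset.univ : Finset (Fin (s i))).map 
        ⟨Sigma.mk (β := fun j => Fin (s j)) i, sigma_mk_injective⟩ := by
    ext ⟨j, y⟩
    simp only [Finset.mem_filter, Finset.mem_univ, true_and, Finset.mem_map,
      Function.Embedding.coeFn_mk]
    constructor
    · rintro rfl
      exact ⟨y, rfl⟩
    · rintro ⟨z, hz⟩
      exact (congrArg Sigma.fst hz).symm
  rw [h2]
  simp

/-- The complete tripartite graph with part map `p`. -/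
def tri {N : ℕ} (p : Fin N → Fin 3) : SimpleGraph (Fin N) := (⊤ : SimpleGraph (Fin 3)).comap p

theorem tri_adj {N : ℕ} (p : Fin N → Fin 3) (u v : Fin N) : (tri p).Adj u v ↔ p u ≠ p v := by
  simp [tri]

def triCol {N : ℕ} (p : Fin N → Fin 3) : (tri p).Coloring (Fin 3) :=
  Coloring.mk p (fun h => (tri_adj p _ _).1 h)

theorem triCol_class {N : ℕ} (p : Fin N → Fin 3) (i : Fin 3) :
    ((triCol p).colorClass i).ncard = (Finset.univ.filter (fun v => p v = i)).card := by
  rw [← Set.ncard_coe_finset]
  congr 1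
  ext v
  simp [Coloring.colorClass, triCol, Coloring.mk]

theorem tri_not_two {N : ℕ} (p : Fin N → Fin 3) (r : Fin 3 → Fin N) (hr : ∀ i, p (r i) = i) :
    ¬ (tri p).Colorable 2 := by
  intro h
  have := h.card_le_of_pairwise_adj r (fun i j hij =>
    (tri_adj p _ _).2 (by rw [hr, hr]; exact hij))
  simp at this

theorem tri_chi {N : ℕ} (p : Fin N → Fin 3) (r : Fin 3 → Fin N) (hr : ∀ i, p (r i) = i) :
    chi (tri p) = 3 := by
  have h : (tri p).chromaticNumber = ((2 : ℕ) + 1 : ℕ∞) :=
    chromaticNumber_eq_iff_colorable_not_colorable.2 ⟨⟨triCol p⟩, tri_not_two p r hr⟩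
  unfold chi
  rw [h]
  rfl

theorem tri_deg {N : ℕ} (p : Fin N → Fin 3) (v : Fin N) :
    ((tri p).neighborSet v).ncard + (Finset.univ.filter (fun u => p u = p v)).card = N := by
  have h : (tri p).neighborSet v = ↑(Finset.univ.filter (fun u => ¬ p u = p v)) := by
    ext u
    simp [tri_adj, eq_comm]
  rw [h, Set.ncard_coe_finset, add_comm, Finset.card_filter_add_card_filter_not]
  simp

/-- A copy of a complete tripartite graph in another one puts a whole part into part `0`. -/
theorem copy_fiber {m n : ℕ} (p : Fin m → Fin 3) (r : Fin 3 → Fin m) (hr : ∀ i, p (r i) = i)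
    (q : Fin n → Fin 3) (f : (tri p).Copy (tri q)) :
    ∃ j : Fin 3, ∀ u, q (f u) = 0 ↔ p u = j := by
  have hne : ∀ u v, p u ≠ p v → q (f u) ≠ q (f v) := fun u v h =>
    (tri_adj q _ _).1 (f.toHom.map_adj ((tri_adj p u v).2 h))
  have hinj : Function.Injective (fun i => q (f (r i))) := by
    intro i j hij
    by_contra hne'
    exact hne (r i) (r j) (by rw [hr, hr]; exact hne') hij
  have hsurj : Function.Surjective (fun i => q (f (r i))) :=
    Finite.surjective_of_injective hinj
  have key : ∀ u, q (f u) = q (f (r (p u))) := by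
    intro u
    obtain ⟨i, hi⟩ := hsurj (q (f u))
    by_cases h : p u = i
    · rw [h]; exact hi.symm
    · exact absurd hi.symm (hne u (r i) (by rw [hr]; exact h))
  obtain ⟨j, hj⟩ := hsurj 0
  refine ⟨j, fun u => ?_⟩
  rw [key u]
  constructor
  · intro h
    exact hinj (h.trans hj.symm)
  · intro h
    rw [h]; exact hj

/-- Counting the vertices of a set through a perfect packing. -/
theorem count_packing {m n k : ℕ} {F : SimpleGraph (Fin m)} {G : SimpleGraph (Fin n)}
    (c : Fin k → F.Copy G) (hc : ∀ v : Fin n, ∃! i : Fin k, v ∈ Set.range (c i))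
    (P : Fin n → Prop) [DecidablePred P] :
    (Finset.univ.filter P).card =
      ∑ i : Fin k, (Finset.univ.filter (fun u : Fin m => P (c i u))).card := by
  have hb : Function.Bijective (fun x : Fin k × Fin m => c x.1 x.2) := by
    constructor
    · rintro ⟨i, u⟩ ⟨j, w⟩ h
      simp only at h
      obtain ⟨l, -, hl⟩ := hc (c i u)
      have h1 : i = l := hl i ⟨u, rfl⟩
      have h2 : j = l := hl j ⟨w, h.symm⟩
      subst h1
      subst h2
      have := (c j).injective h
      rw [this]
    · intro v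
      obtain ⟨i, ⟨u, hu⟩, -⟩ := hc v
      exact ⟨⟨i, u⟩, hu⟩
  have h1 : (Finset.univ.filter P).card =
      (Finset.univ.filter (fun x : Fin k × Fin m => P (c x.1 x.2))).card := by
    symm
    apply Finset.card_bijective _ hb
    intro x
    simp
  rw [h1, Finset.card_filter, Fintype.sum_prod_type]
  refine Finset.sum_congr rfl (fun i _ => ?_)
  rw [Finset.card_filter]

theorem no_packing {m n : ℕ} (f k : ℕ) (p : Fin m → Fin 3)
    (hp : ∀ i, (Finset.univ.filter (fun v => p v = i)).card = ![1, f + 3, f + 4] i)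
    (r : Fin 3 → Fin m) (hr : ∀ i, p (r i) = i) (hm : m = 2 * f + 8) (hn : n = k * m)
    (q : Fin n → Fin 3)
    (hq : (Finset.univ.filter (fun v => q v = 0)).card = k + (f * f + 3 * f + 1)) :
    ¬ HasPerfectPacking (tri p) (tri q) := by
  rintro ⟨l, c, hc⟩
  have h1 := count_packing c hc (fun _ => True)
  simp only [Finset.filter_true, Finset.card_univ, Fintype.card_fin, Finset.sum_const,
    smul_eq_mul] at h1
  have hl : l = k := by
    have hm0 : 0 < m := by omega
    rw [hn] at h1
    exact (Nat.eq_of_mul_eq_mul_right hm0 h1).symm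
  have h2 := count_packing c hc (fun v => q v = 0)
  rw [hq] at h2
  choose j hj using fun i => copy_fiber p r hr q (c i)
  have h3 : ∀ i, (Finset.univ.filter (fun u : Fin m => q (c i u) = 0)).card
      = ![1, f + 3, f + 4] (j i) := by
    intro i
    rw [← hp]
    congr 1
    ext u
    simp [hj i u]
  simp only [h3] at h2
  have lo : ∀ t : Fin 3, 1 + (if t ≠ 0 then 1 else 0) * (f + 2) ≤ ![1, f + 3, f + 4] t := by
    intro t
    fin_cases t <;> simp <;> omega
  have hi : ∀ t : Fin 3, ![1, f + 3, f + 4] t ≤ 1 + (if t ≠ 0 then 1 else 0) * (f + 3) := by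
    intro t
    fin_cases t <;> (simp; try omega)
  have slo := Finset.sum_le_sum (s := Finset.univ) (fun i _ => lo (j i))
  have shi := Finset.sum_le_sum (s := Finset.univ) (fun i _ => hi (j i))
  rw [← h2, Finset.sum_add_distrib, ← Finset.sum_mul] at slo shi
  simp only [Finset.sum_const, Finset.card_univ, Fintype.card_fin, smul_eq_mul, mul_one] at slo shi
  generalize (∑ i : Fin l, if j i ≠ 0 then 1 else 0) = t at slo shi
  subst hl
  rcases Nat.lt_or_ge t (f + 1) with ht | ht
  · have : t * (f + 3) ≤ f * (f + 3) := Nat.mul_le_mul_right _ (by omega)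
    nlinarith
  · have : (f + 1) * (f + 2) ≤ t * (f + 2) := Nat.mul_le_mul_right _ ht
    nlinarith

theorem chiStar_tri {m : ℕ} (f : ℕ) (p : Fin m → Fin 3)
    (hp : ∀ i, (Finset.univ.filter (fun v => p v = i)).card = ![1, f + 3, f + 4] i)
    (r : Fin 3 → Fin m) (hr : ∀ i, p (r i) = i) :
    chiStar (tri p) = chiCr (tri p) ∧ sigma (tri p) ≤ 1 := by
  have h3 := tri_chi p r hr
  have hcol : ∀ l : ℕ, l = 3 → ∃ c : (tri p).Coloring (Fin l),
      Monotone (fun i => (c.colorClass i).ncard) ∧ (∃ i, 1 = (c.colorClass i).ncard) ∧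
      ∃ i j : Fin l, (j : ℕ) = (i : ℕ) + 1 ∧
        1 = (c.colorClass j).ncard - (c.colorClass i).ncard := by
    rintro l rfl
    refine ⟨triCol p, ?_, ⟨0, ?_⟩, 1, 2, rfl, ?_⟩
    · intro a b hab
      simp only [triCol_class, hp]
      fin_cases a <;> fin_cases b <;> simp_all
    · rw [triCol_class, hp]; rfl
    · rw [triCol_class, triCol_class, hp, hp]; simp
  obtain ⟨c, hmono, ⟨i0, hi0⟩, i, j, hij, hd⟩ := hcol _ h3
  constructor
  · have : HcfOne (tri p) := by
      refine Or.inr ⟨tri_not_two p r hr, fun g hg => ?_⟩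
      exact Nat.dvd_one.1 (hg 1 ⟨c, hmono, i, j, hij, hd⟩)
    unfold chiStar
    rw [if_pos this]
  · exact Nat.sInf_le ⟨c, i0, hi0⟩

/-- For every real `c` there is a graph `F` (on `m` vertices, with an edge) and arbitrarily large
`n` divisible by `m` with an `n`-vertex graph `G` of minimum degree at least
`(1 - 1 / chiStar F) n + c m` and no perfect `F`-packing.  The case `c = 1` is the negated form
of Q1. -/
theorem result : ∀ c : ℝ, ∃ (m : ℕ) (F : SimpleGraph (Fin m)), F ≠ ⊥ ∧
    ∀ n₀ : ℕ, ∃ n : ℕ, n₀ ≤ n ∧ m ∣ n ∧ ∃ G : SimpleGraph (Fin n),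
      (∀ v : Fin n,
        (1 - 1 / chiStar F) * (n : ℝ) + c * (m : ℝ) ≤ ((G.neighborSet v).ncard : ℝ)) ∧
      ¬ HasPerfectPacking F G := by
  intro c
  obtain ⟨f, hf⟩ : ∃ f : ℕ, 16 * c ≤ f := exists_nat_ge _
  obtain ⟨p, hp⟩ := exists_part ![1, f + 3, f + 4] (2 * f + 8) (by simp [Fin.sum_univ_three]; omega)
  have hr' : ∀ i, ∃ v, p v = i := by
    intro i
    have : 0 < (Finset.univ.filter (fun v => p v = i)).card := by
      rw [hp]; fin_cases i <;> simp
    obtain ⟨v, hv⟩ := Finset.card_pos.1 this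
    exact ⟨v, by simpa using hv⟩
  choose r hr using hr'
  refine ⟨2 * f + 8, tri p, ?_, fun j => ?_⟩
  · intro h
    have : (tri p).Adj (r 0) (r 1) := by rw [tri_adj, hr, hr]; decide
    rw [h] at this
    exact this
  · set x := f * f + 3 * f + 1 with hx
    obtain ⟨q, hq⟩ := exists_part
      ![2 * j + x + x, j * (2 * f + 7) + x * (f + 3), j * (2 * f + 7) + x * (f + 3)]
      ((2 * j + x) * (2 * f + 8)) (by simp [Fin.sum_univ_three]; ring)
    refine ⟨(2 * j + x) * (2 * f + 8), by nlinarith, Dvd.intro_left _ rfl, tri q, fun v => ?_, ?_⟩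
    · obtain ⟨h1, h2⟩ := chiStar_tri f p hp r hr
      have hd := tri_deg q v
      have hb : (Finset.univ.filter (fun u => q u = q v)).card
          ≤ j * (2 * f + 7) + x * (f + 3) := by
        rw [hq]
        generalize q v = t
        fin_cases t
        · simp; nlinarith
        · simp
        · simp
      have hdeg : j * (2 * f + 9) + x * (f + 5) ≤ ((tri q).neighborSet v).ncard := by
        have : (2 * j + x) * (2 * f + 8)
            = (j * (2 * f + 9) + x * (f + 5)) + (j * (2 * f + 7) + x * (f + 3)) := by ring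
        omega
      have hdeg' : (j : ℝ) * (2 * f + 9) + x * (f + 5) ≤ (((tri q).neighborSet v).ncard : ℝ) := by
        exact_mod_cast hdeg
      have hs : (sigma (tri p) : ℝ) ≤ 1 := by exact_mod_cast h2
      have hf0 : (0 : ℝ) ≤ f := Nat.cast_nonneg f
      have hj0 : (0 : ℝ) ≤ j := Nat.cast_nonneg j
      have hxr : (x : ℝ) = f * f + 3 * f + 1 := by rw [hx]; push_cast; ring
      have hx0 : (0 : ℝ) ≤ x := Nat.cast_nonneg x
      rw [h1]
      unfold chiCr
      rw [tri_chi p r hr]
      have e1 : (1 - 1 / ((((3 : ℕ) : ℝ) - 1) * ((2 * f + 8 : ℕ) : ℝ) /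
          (((2 * f + 8 : ℕ) : ℝ) - (sigma (tri p) : ℝ)))) * (((2 * j + x) * (2 * f + 8) : ℕ) : ℝ)
          = (2 * j + x) * ((2 * f + 8) + (sigma (tri p) : ℝ)) / 2 := by
        have hm : (2 * (f : ℝ) + 8) ≠ 0 := by positivity
        rw [one_div, inv_div]
        push_cast
        field_simp
        ring
      rw [e1]
      push_cast
      have h5 : (2 * (j : ℝ) + x) * (sigma (tri p) : ℝ) ≤ (2 * j + x) * 1 :=
        mul_le_mul_of_nonneg_left hs (by positivity)
      have h6 : c * (2 * (f : ℝ) + 8) ≤ x / 2 := by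
        have : c * (2 * (f : ℝ) + 8) ≤ f / 16 * (2 * f + 8) :=
          mul_le_mul_of_nonneg_right (by linarith) (by positivity)
        rw [hxr]
        nlinarith
      nlinarith
    · exact no_packing f (2 * j + x) p hp r hr rfl rfl q (by rw [hq]; rfl)

end Pool.Agent.Results.MP_130313_co.Disproof
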